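import Pool.Agent.H51.Carpet.NoCarpet

set_option autoImplicit false

open Set Topology

namespace Pool.Agent.H77.Carpet

open Pool.Agent.H51.Carpet (no_sqrt)

/-- If the squares are dense in `C(X)`, then `X` contains no simple closed curve. -/
theorem no_circle {X : Type*} [TopologicalSpace X] [CompactSpace X] [T2Space X]
    (hsq : ∀ F : C(X, ℂ), ∀ ε > (0 : ℝ), ∃ M : C(X, ℂ), ‖M * M - F‖ < ε) :
    ¬ ∃ K : Set X, Nonempty (↥K ≃ₜ Circle) := by
  rintro ⟨K, ⟨e⟩⟩
  have hKc : CompactSpace K := e.symm.compactSpace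
  have hK : IsClosed K := (isCompact_iff_compactSpace.mpr hKc).isClosed
  let G : C(Circle, ℂ) := ⟨fun z => (z : ℂ), by fun_prop⟩
  obtain ⟨F, hF⟩ := ContinuousMap.exists_restrict_eq hK (G.comp ⟨e, e.continuous⟩)
  have hFe : ∀ k : K, F k = G (e k) := by
    intro k
    have := congrArg (fun w : C(K, ℂ) => w k) hF
    exact this
  obtain ⟨M, hM⟩ := hsq F (1 / 2) (by norm_num)
  let Γ : ℝ → K := fun θ => e.symm (Circle.exp θ)
  have hΓ : Continuous Γ := e.symm.continuous.comp Circle.exp.continuous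
  let m : ℝ → ℂ := fun θ => M (Γ θ)
  have hm : Continuous m := M.continuous.comp (continuous_subtype_val.comp hΓ)
  have hG : ∀ θ : ℝ, G (e (Γ θ)) = Complex.exp (θ * Complex.I) := by
    intro θ
    simp only [Γ, Homeomorph.apply_symm_apply, G, ContinuousMap.coe_mk, Circle.coe_exp]
  have hmG : ∀ θ, ‖m θ * m θ - G (e (Γ θ))‖ < 1 / 2 := by
    intro θ
    rw [← hFe]
    exact lt_of_le_of_lt (ContinuousMap.norm_coe_le_norm (M * M - F) (Γ θ)) hM
  have hGn : ∀ θ, ‖G (e (Γ θ))‖ = 1 := by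
    intro θ
    rw [hG, Complex.norm_exp_ofReal_mul_I]
  have hG0 : ∀ θ, G (e (Γ θ)) ≠ 0 := fun θ => norm_pos_iff.mp (by rw [hGn θ]; norm_num)
  have hGcont : Continuous fun θ => G (e (Γ θ)) := G.continuous.comp (e.continuous.comp hΓ)
  have hslit : ∀ θ, m θ * m θ / G (e (Γ θ)) ∈ Complex.slitPlane := by
    intro θ
    have h0 : ‖m θ * m θ / G (e (Γ θ)) - 1‖ < 1 := by
      have : m θ * m θ / G (e (Γ θ)) - 1 = (m θ * m θ - G (e (Γ θ))) / G (e (Γ θ)) := by
        field_simp [hG0 θ]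
      rw [this, norm_div, div_lt_one (norm_pos_iff.mpr (hG0 θ)), hGn θ]
      have := hmG θ
      linarith
    have h1 := Complex.mem_slitPlane_of_norm_lt_one h0
    simpa using h1
  have hq0 : ∀ θ, m θ * m θ / G (e (Γ θ)) ≠ 0 := fun θ => Complex.slitPlane_ne_zero (hslit θ)
  let w : ℝ → ℂ := fun θ => m θ * Complex.exp (-(Complex.log (m θ * m θ / G (e (Γ θ))) / 2))
  have hwc : Continuous w := by
    refine Continuous.mul hm ?_
    refine Complex.continuous_exp.comp (Continuous.neg (Continuous.div_const ?_ _))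
    exact Continuous.clog ((hm.mul hm).div hGcont hG0) hslit
  refine no_sqrt w hwc ?_ ?_
  · have h1 : Γ (2 * Real.pi) = Γ 0 := by
      simp only [Γ]
      rw [Circle.exp_two_pi, Circle.exp_zero]
    simp only [w, m]
    rw [h1]
  · intro θ
    simp only [w]
    rw [mul_pow, ← Complex.exp_nat_mul]
    have e1 : ((2 : ℕ) : ℂ) * -(Complex.log (m θ * m θ / G (e (Γ θ))) / 2) =
        -(Complex.log (m θ * m θ / G (e (Γ θ)))) := by
      push_cast
      ring
    rw [e1, Complex.exp_neg, Complex.exp_log (hq0 θ), ← hG θ]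
    have h2 : m θ ≠ 0 := by
      intro h
      apply hq0 θ
      rw [h]
      simp
    have h3 := hG0 θ
    field_simp

end Pool.Agent.H77.Carpet
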